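import Mathlib
import Pool.Graph.R_seed8.Y287.BG.Code

/-!
# Ultrafilters Tukey below topological directed sets are basically generated

An ultrafilter on `ω` is basically generated if and only if it is Tukey reducible to some directed
set with a second countable topology in which every convergent sequence has a bounded subsequence.
Such directed sets are closed under countable products, hence so are, up to Tukey reductions,
the basically generated ultrafilters.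
-/

set_option autoImplicit false
set_option linter.all false

namespace Pool.Agent.Results.MP_af8240_lc.BelowBasicOrders

open Set Filter Topology

/-- `U` is nonprincipal. -/
def Nonprincipal (U : Ultrafilter ℕ) : Prop := ∀ n : ℕ, ({n} : Set ℕ) ∉ U

/-- `U` is a p-point: `U` is nonprincipal, and for every sequence `A n` in `U` there is `B` in `U`
with `B \ A n` finite for every `n`. -/
def IsPPoint (U : Ultrafilter ℕ) : Prop :=
  Nonprincipal U ∧ ∀ A : ℕ → Set ℕ, (∀ n, A n ∈ U) → ∃ B ∈ U, ∀ n, (B \ A n).Finite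

/-- The Fubini limit of the ultrafilters `V n` along `U`: a set `A` belongs to it if and only if
`{n | {m | (n, m) ∈ A} ∈ V n} ∈ U`. -/
def fubiniLim (U : Ultrafilter ℕ) (V : ℕ → Ultrafilter ℕ) : Ultrafilter (ℕ × ℕ) :=
  U.bind fun n => (V n).map (Prod.mk n)

theorem mem_fubiniLim (U : Ultrafilter ℕ) (V : ℕ → Ultrafilter ℕ) (A : Set (ℕ × ℕ)) :
    A ∈ fubiniLim U V ↔ {n | {m | (n, m) ∈ A} ∈ V n} ∈ U := Iff.rfl

/-- The (countable) Fubini iterates of p-points. -/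
inductive FubiniIterate : Ultrafilter ℕ → Prop
  | ppoint (U : Ultrafilter ℕ) : IsPPoint U → FubiniIterate U
  | iso (U : Ultrafilter ℕ) (e : ℕ ≃ ℕ) : FubiniIterate U → FubiniIterate (U.map e)
  | lim (U : Ultrafilter ℕ) (V : ℕ → Ultrafilter ℕ) (e : ℕ × ℕ ≃ ℕ) : FubiniIterate U →
      (∀ n, FubiniIterate (V n)) → FubiniIterate ((fubiniLim U V).map e)

/-- `U` is basically generated: it has a base `ℬ` such that every sequence in `ℬ` that converges
to a member of `ℬ` has a subsequence whose intersection is in `U`. -/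
def BasicallyGenerated (U : Ultrafilter ℕ) : Prop :=
  ∃ ℬ : Set (Set ℕ), (∀ X ∈ ℬ, X ∈ U) ∧ (∀ A ∈ U, ∃ X ∈ ℬ, X ⊆ A) ∧
    ∀ (X : ℕ → Set ℕ) (Y : Set ℕ), (∀ n, X n ∈ ℬ) → Y ∈ ℬ →
      (∀ m : ℕ, ∀ᶠ n in atTop, (m ∈ X n ↔ m ∈ Y)) →
      ∃ φ : ℕ → ℕ, StrictMono φ ∧ (⋂ k, X (φ k)) ∈ U

/-- The ultrafilter `U` as a directed set: its members. -/
def Dir (U : Ultrafilter ℕ) : Type := {A : Set ℕ // A ∈ U}

/-- The members of `U` are ordered by reverse inclusion. -/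
instance (U : Ultrafilter ℕ) : Preorder (Dir U) where
  le A B := B.1 ⊆ A.1
  le_refl _ := subset_rfl
  le_trans _ _ _ h1 h2 := h2.trans h1

/-- `E ≤_T D`: some map from `D` to `E` takes cofinal sets to cofinal sets. -/
def TukeyLE (E D : Type) [Preorder E] [Preorder D] : Prop :=
  ∃ g : D → E, ∀ C : Set D, IsCofinal C → IsCofinal (g '' C)

/-- `D` is a nonempty directed set with a second countable topology in which every convergent
sequence has a subsequence that is bounded above. -/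
def IsBasicOrder (D : Type) [Preorder D] [TopologicalSpace D] : Prop :=
  Nonempty D ∧ (∀ x y : D, ∃ z, x ≤ z ∧ y ≤ z) ∧ SecondCountableTopology D ∧
    ∀ (x : ℕ → D) (y : D), Tendsto x atTop (𝓝 y) →
      ∃ φ : ℕ → ℕ, StrictMono φ ∧ BddAbove (range fun k => x (φ k))

/-- The smallest class of ultrafilters that contains all p-points, is closed under Fubini limits,
and contains every ultrafilter which is Tukey reducible to the product of countably many
members of the class and a basic order. -/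
inductive Gen : Ultrafilter ℕ → Prop
  | ppoint (U : Ultrafilter ℕ) : IsPPoint U → Gen U
  | lim (U : Ultrafilter ℕ) (V : ℕ → Ultrafilter ℕ) (e : ℕ × ℕ ≃ ℕ) : Gen U →
      (∀ n, Gen (V n)) → Gen ((fubiniLim U V).map e)
  | reduce (D : Type) [Preorder D] [TopologicalSpace D] (U : ℕ → Ultrafilter ℕ)
      (V : Ultrafilter ℕ) : IsBasicOrder D → (∀ n, Gen (U n)) →
      TukeyLE (Dir V) (D × ∀ n, Dir (U n)) → Gen V

/-! ### Tukey maps -/

theorem tukey_iff {E D : Type} [Preorder E] [Preorder D] (g : D → E) :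
    (∀ C : Set D, IsCofinal C → IsCofinal (g '' C)) ↔ ∀ e, ∃ d, ∀ d', d ≤ d' → e ≤ g d' := by
  constructor
  · intro h e
    by_contra hcon
    push Not at hcon
    obtain ⟨_, ⟨y, hy, rfl⟩, hy2⟩ := h {d | ¬ e ≤ g d} (fun d => by
      obtain ⟨d', h1, h2⟩ := hcon d
      exact ⟨d', h2, h1⟩) e
    exact hy hy2
  · intro h C hC e
    obtain ⟨d, hd⟩ := h e
    obtain ⟨c, hc, hdc⟩ := hC d
    exact ⟨g c, ⟨c, hc, rfl⟩, hd c hdc⟩

theorem TukeyLE.trans {E D F : Type} [Preorder E] [Preorder D] [Preorder F]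
    (h1 : TukeyLE E D) (h2 : TukeyLE D F) : TukeyLE E F := by
  obtain ⟨g, hg⟩ := h1
  obtain ⟨k, hk⟩ := h2
  refine ⟨g ∘ k, fun C hC => ?_⟩
  rw [image_comp]
  exact hg _ (hk C hC)

theorem TukeyLE.prod {E D E' D' : Type} [Preorder E] [Preorder D] [Preorder E'] [Preorder D']
    (h1 : TukeyLE E D) (h2 : TukeyLE E' D') : TukeyLE (E × E') (D × D') := by
  obtain ⟨g, hg⟩ := h1
  obtain ⟨k, hk⟩ := h2
  rw [tukey_iff] at hg hk
  refine ⟨fun p => (g p.1, k p.2), (tukey_iff _).2 fun e => ?_⟩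
  obtain ⟨d, hd⟩ := hg e.1
  obtain ⟨d', hd'⟩ := hk e.2
  exact ⟨(d, d'), fun p hp => ⟨hd _ hp.1, hd' _ hp.2⟩⟩

theorem TukeyLE.pi {E D : ℕ → Type} [∀ n, Preorder (E n)] [∀ n, Preorder (D n)]
    (h : ∀ n, TukeyLE (E n) (D n)) : TukeyLE (∀ n, E n) (∀ n, D n) := by
  choose g hg using h
  have hg' : ∀ n, ∀ e, ∃ d, ∀ d', d ≤ d' → e ≤ g n d' := fun n => (tukey_iff _).1 (hg n)
  refine ⟨fun p n => g n (p n), (tukey_iff _).2 fun e => ?_⟩
  choose d hd using fun n => hg' n (e n)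
  exact ⟨d, fun p hp n => hd n _ (hp n)⟩

/-- For ultrafilters, the reduction is the one with a monotone map. -/
theorem tukey_mono (U V : Ultrafilter ℕ) : TukeyLE (Dir V) (Dir U) ↔
    ∃ f : Set ℕ → Set ℕ, (∀ A ∈ U, f A ∈ V) ∧ (∀ A ∈ U, ∀ B ∈ U, B ⊆ A → f B ⊆ f A) ∧
      ∀ Q ∈ V, ∃ A ∈ U, f A ⊆ Q := by
  classical
  constructor
  · rintro ⟨g, hg⟩
    rw [tukey_iff] at hg
    refine ⟨fun A => ⋃ (B : Dir U) (_ : B.1 ⊆ A), (g B).1, ?_, ?_, ?_⟩
    · intro A hA
      exact mem_of_superset (g ⟨A, hA⟩).2 (subset_iUnion₂ (s := fun (B : Dir U) (_ : B.1 ⊆ A) =>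
        (g B).1) ⟨A, hA⟩ subset_rfl)
    · intro A _ B _ hBA
      exact iUnion₂_subset fun B' hB' => subset_iUnion₂ (s := fun (B : Dir U) (_ : B.1 ⊆ A) =>
        (g B).1) B' (hB'.trans hBA)
    · intro Q hQ
      obtain ⟨d, hd⟩ := hg ⟨Q, hQ⟩
      exact ⟨d.1, d.2, iUnion₂_subset fun B hB => hd B hB⟩
  · rintro ⟨f, h1, h2, h3⟩
    refine ⟨fun A => ⟨f A.1, h1 A.1 A.2⟩, (tukey_iff _).2 fun Q => ?_⟩
    obtain ⟨A, hA, hAQ⟩ := h3 Q.1 Q.2
    exact ⟨⟨A, hA⟩, fun B hB => (h2 A hA B.1 B.2 hB).trans hAQ⟩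

/-! ### Basic orders -/

/-- bounded infinite subsets of convergent sequences -/
theorem bdd_subset {D : Type} [Preorder D] [TopologicalSpace D] (hD : IsBasicOrder D)
    {x : ℕ → D} {y : D} (hx : Tendsto x atTop (𝓝 y)) (M : Set ℕ) (hM : M.Infinite) :
    ∃ M' ⊆ M, M'.Infinite ∧ BddAbove (x '' M') := by
  have h1 : StrictMono (Nat.nth (· ∈ M)) := Nat.nth_strictMono hM
  obtain ⟨φ, hφ, hb⟩ := hD.2.2.2 (fun k => x (Nat.nth (· ∈ M) k)) y
    (hx.comp h1.tendsto_atTop)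
  refine ⟨range fun k => Nat.nth (· ∈ M) (φ k), ?_, ?_, ?_⟩
  · rintro _ ⟨k, rfl⟩
    exact Nat.nth_mem_of_infinite hM (φ k)
  · exact infinite_range_of_injective (h1.comp hφ).injective
  · rw [← range_comp]
    exact hb

theorem bdd_finite {D : Type} [Preorder D] [Nonempty D] (hD : ∀ x y : D, ∃ z, x ≤ z ∧ y ≤ z)
    {s : Set D} (hs : s.Finite) : BddAbove s := by
  haveI : IsDirectedOrder D := ⟨hD⟩
  exact hs.bddAbove

theorem IsBasicOrder.prod {D E : Type} [Preorder D] [TopologicalSpace D] [Preorder E]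
    [TopologicalSpace E] (hD : IsBasicOrder D) (hE : IsBasicOrder E) : IsBasicOrder (D × E) := by
  haveI := hD.1
  haveI := hE.1
  haveI := hD.2.2.1
  haveI := hE.2.2.1
  refine ⟨inferInstance, ?_, inferInstance, ?_⟩
  · intro x y
    obtain ⟨z, hz⟩ := hD.2.1 x.1 y.1
    obtain ⟨w, hw⟩ := hE.2.1 x.2 y.2
    exact ⟨(z, w), ⟨hz.1, hw.1⟩, ⟨hz.2, hw.2⟩⟩
  · intro x y hx
    have h1 : Tendsto (fun n => (x n).1) atTop (𝓝 y.1) := (continuous_fst.tendsto y).comp hx
    have h2 : Tendsto (fun n => (x n).2) atTop (𝓝 y.2) := (continuous_snd.tendsto y).comp hx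
    obtain ⟨φ, hφ, ⟨a, ha⟩⟩ := hD.2.2.2 _ _ h1
    obtain ⟨ψ, hψ, ⟨b, hb⟩⟩ := hE.2.2.2 _ _ (h2.comp hφ.tendsto_atTop)
    refine ⟨φ ∘ ψ, hφ.comp hψ, (a, b), ?_⟩
    rintro _ ⟨k, rfl⟩
    exact ⟨ha ⟨ψ k, rfl⟩, hb ⟨k, rfl⟩⟩

theorem IsBasicOrder.pi {E : ℕ → Type} [∀ n, Preorder (E n)] [∀ n, TopologicalSpace (E n)]
    (hE : ∀ n, IsBasicOrder (E n)) : IsBasicOrder (∀ n, E n) := by
  haveI := fun n => (hE n).1
  haveI := fun n => (hE n).2.2.1
  refine ⟨inferInstance, ?_, inferInstance, ?_⟩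
  · intro x y
    choose z hz using fun n => (hE n).2.1 (x n) (y n)
    exact ⟨z, fun n => (hz n).1, fun n => (hz n).2⟩
  · intro x y hx
    have hx' : ∀ n, Tendsto (fun k => x k n) atTop (𝓝 (y n)) := fun n =>
      (tendsto_pi_nhds.1 hx) n
    choose! N hN1 hN2 hN3 using fun (n : ℕ) (M : Set ℕ) (hM : M.Infinite) =>
      bdd_subset (hE n) (hx' n) M hM
    -- the decreasing sequence of infinite sets
    let M : ℕ → Set ℕ := fun n => Nat.rec (N 0 univ) (fun k s => N (k + 1) s) n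
    have hMs : ∀ n, M (n + 1) = N (n + 1) (M n) := fun n => rfl
    have hMinf : ∀ n, (M n).Infinite := by
      intro n
      induction n with
      | zero => exact hN2 0 univ infinite_univ
      | succ n ih => rw [hMs]; exact hN2 _ _ ih
    have hMb : ∀ n, BddAbove ((fun k => x k n) '' M n) := by
      intro n
      cases n with
      | zero => exact hN3 0 univ infinite_univ
      | succ n => rw [hMs]; exact hN3 _ _ (hMinf n)
    have hManti : Antitone M := antitone_nat_of_succ_le fun n => by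
      rw [hMs]; exact hN1 _ _ (hMinf n)
    obtain ⟨φ, hφ, hφM⟩ := Filter.extraction_forall_of_frequently (P := fun n k => k ∈ M n)
      fun n => Nat.frequently_atTop_iff_infinite.2 (hMinf n)
    refine ⟨φ, hφ, ?_⟩
    have hb : ∀ n, BddAbove (range fun k => x (φ k) n) := by
      intro n
      haveI : IsDirectedOrder (E n) := ⟨(hE n).2.1⟩
      have h1 : (range fun k => x (φ k) n) ⊆
          ((fun k => x k n) '' M n) ∪ ((fun k => x (φ k) n) '' (Iio n)) := by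
        rintro _ ⟨k, rfl⟩
        by_cases hk : k < n
        · exact Or.inr ⟨k, hk, rfl⟩
        · exact Or.inl ⟨φ k, hManti (not_lt.1 hk) (hφM k), rfl⟩
      exact ((hMb n).union ((finite_Iio n).image _).bddAbove).mono h1
    choose b hb using hb
    refine ⟨b, ?_⟩
    rintro _ ⟨k, rfl⟩ n
    exact hb n ⟨k, rfl⟩

/-- A base of an ultrafilter as a directed set. -/
def BaseDir (ℬ : Set (Set ℕ)) : Type := {A : Set ℕ // A ∈ ℬ}

instance (ℬ : Set (Set ℕ)) : Preorder (BaseDir ℬ) where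
  le A B := B.1 ⊆ A.1
  le_refl _ := subset_rfl
  le_trans _ _ _ h1 h2 := h2.trans h1

open Classical in
/-- the characteristic function -/
noncomputable def chi {ℬ : Set (Set ℕ)} (A : BaseDir ℬ) : ℕ → Bool := fun n => decide (n ∈ A.1)

noncomputable instance (ℬ : Set (Set ℕ)) : TopologicalSpace (BaseDir ℬ) :=
  TopologicalSpace.induced chi inferInstance

theorem baseDir_basic {U : Ultrafilter ℕ} {ℬ : Set (Set ℕ)} (h1 : ∀ X ∈ ℬ, X ∈ U)
    (h2 : ∀ A ∈ U, ∃ X ∈ ℬ, X ⊆ A)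
    (h3 : ∀ (X : ℕ → Set ℕ) (Y : Set ℕ), (∀ n, X n ∈ ℬ) → Y ∈ ℬ →
      (∀ m : ℕ, ∀ᶠ n in atTop, (m ∈ X n ↔ m ∈ Y)) →
      ∃ φ : ℕ → ℕ, StrictMono φ ∧ (⋂ k, X (φ k)) ∈ U) :
    IsBasicOrder (BaseDir ℬ) ∧ TukeyLE (Dir U) (BaseDir ℬ) := by
  classical
  refine ⟨⟨?_, ?_, ?_, ?_⟩, ?_⟩
  · obtain ⟨X, hX, -⟩ := h2 univ univ_mem
    exact ⟨⟨X, hX⟩⟩
  · rintro ⟨X, hX⟩ ⟨Y, hY⟩
    obtain ⟨Z, hZ, hZ'⟩ := h2 (X ∩ Y) (inter_mem (h1 X hX) (h1 Y hY))
    exact ⟨⟨Z, hZ⟩, hZ'.trans inter_subset_left, hZ'.trans inter_subset_right⟩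
  · exact TopologicalSpace.secondCountableTopology_induced _ _ _
  · intro x y hx
    have hx' : Tendsto (fun n => chi (x n)) atTop (𝓝 (chi y)) :=
      (continuous_induced_dom.tendsto y).comp hx
    have hp : ∀ m : ℕ, ∀ᶠ n in atTop, (m ∈ (x n).1 ↔ m ∈ y.1) := by
      intro m
      have h4 := (tendsto_pi_nhds.1 hx') m
      rw [nhds_discrete, tendsto_pure] at h4
      filter_upwards [h4] with n hn
      simpa [chi] using hn
    obtain ⟨φ, hφ, hU⟩ := h3 (fun n => (x n).1) y.1 (fun n => (x n).2) y.2 hp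
    obtain ⟨Z, hZ, hZ'⟩ := h2 _ hU
    refine ⟨φ, hφ, ⟨Z, hZ⟩, ?_⟩
    rintro _ ⟨k, rfl⟩
    exact hZ'.trans (iInter_subset _ k)
  · refine ⟨fun X => ⟨X.1, h1 X.1 X.2⟩, (tukey_iff _).2 fun A => ?_⟩
    obtain ⟨X, hX, hXA⟩ := h2 A.1 A.2
    exact ⟨⟨X, hX⟩, fun Y hY => Subset.trans (show Y.1 ⊆ X from hY) hXA⟩

/-- an ultrafilter Tukey below a basic order is basically generated -/
theorem main {D : Type} [Preorder D] [TopologicalSpace D] (hD : IsBasicOrder D)
    (V : Ultrafilter ℕ) (h : TukeyLE (Dir V) D) : BasicallyGenerated V := by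
  classical
  obtain ⟨hne, hdir, hsc, hb⟩ := hD
  by_cases hV : Pool.Agent.Y287.BG.PseudoInt V
  · exact ⟨{X | X ∈ V}, fun X hX => hX, fun A hA => ⟨A, hA, subset_rfl⟩,
      fun X Y hX hY hc => Pool.Agent.Y287.BG.ppoint_case hV X Y hX hY hc⟩
  · obtain ⟨T, C, hT, hC, hdec⟩ := Pool.Agent.Y287.BG.coding hV
    obtain ⟨g, hg⟩ := h
    rw [tukey_iff] at hg
    -- the topology is generated by a sequence of sets
    obtain ⟨O, hO⟩ : ∃ O : ℕ → Set D, ∀ (x : ℕ → D) (y : D),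
        (∀ m, ∀ᶠ n in atTop, (x n ∈ O m ↔ y ∈ O m)) → Tendsto x atTop (𝓝 y) := by
      have hbas := TopologicalSpace.isBasis_countableBasis D
      obtain ⟨O, hO⟩ := (TopologicalSpace.countable_countableBasis D).exists_eq_range (by
        obtain ⟨d⟩ := hne
        obtain ⟨s, hs, -⟩ := hbas.exists_subset_of_mem_open (mem_univ d) isOpen_univ
        exact ⟨s, hs⟩)
      refine ⟨O, fun x y hxy => ?_⟩
      rw [(hbas.nhds_hasBasis (a := y)).tendsto_right_iff]
      rintro s ⟨hs, hys⟩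
      rw [hO] at hs
      obtain ⟨m, rfl⟩ := hs
      filter_upwards [hxy m] with n hn
      exact hn.2 hys
    refine ⟨{B | ∃ S ∈ V, ∃ x : D, (∀ z, x ≤ z → (g z).1 ⊆ T S) ∧ B = C S {m | x ∈ O m}},
      ?_, ?_, ?_⟩
    · rintro _ ⟨S, hS, x, -, rfl⟩
      exact Filter.mem_of_superset (hT S hS) (hC S hS _).1
    · intro A hA
      obtain ⟨x, hx⟩ := hg ⟨T A, hT A hA⟩
      exact ⟨C A {m | x ∈ O m}, ⟨A, hA, x, fun z hz => hx z hz, rfl⟩, (hC A hA _).2⟩
    · rintro B _ hB ⟨S, hS, x, -, rfl⟩ hconv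
      choose S' hS' x' hfT hBC using hB
      obtain rfl : B = fun n => C (S' n) {m | x' n ∈ O m} := funext hBC
      have h1 := hdec S' (fun n => {m | x' n ∈ O m}) S {m | x ∈ O m} hS' hS hconv
      obtain ⟨φ, hφ, z, hz⟩ := hb x' x (hO x' x h1)
      refine ⟨φ, hφ, Filter.mem_of_superset (g z).2 ?_⟩
      intro w hw
      rw [Set.mem_iInter]
      intro k
      exact (hC _ (hS' _) _).1 (hfT _ z (hz ⟨k, rfl⟩) hw)

theorem BasicallyGenerated.exists_order {U : Ultrafilter ℕ} (hU : BasicallyGenerated U) :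
    ∃ ℬ : Set (Set ℕ), IsBasicOrder (BaseDir ℬ) ∧ TukeyLE (Dir U) (BaseDir ℬ) := by
  obtain ⟨ℬ, h1, h2, h3⟩ := hU
  exact ⟨ℬ, baseDir_basic h1 h2 h3⟩

/-- countable products -/
theorem product {D : Type} [Preorder D] [TopologicalSpace D] (hD : IsBasicOrder D)
    {U : ℕ → Ultrafilter ℕ} (hU : ∀ n, BasicallyGenerated (U n)) {V : Ultrafilter ℕ}
    (h : TukeyLE (Dir V) (D × ∀ n, Dir (U n))) : BasicallyGenerated V := by
  choose ℬ h1 h2 using fun n => (hU n).exists_order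
  refine main (hD.prod (IsBasicOrder.pi h1)) V (h.trans ?_)
  exact TukeyLE.prod ⟨id, fun C hC => by rwa [image_id]⟩ (TukeyLE.pi h2)

/-- a Fubini limit is Tukey below the product -/
theorem lim_le (U : Ultrafilter ℕ) (V : ℕ → Ultrafilter ℕ) (e : ℕ × ℕ ≃ ℕ) :
    TukeyLE (Dir ((fubiniLim U V).map e)) (Dir U × ∀ n, Dir (V n)) := by
  have hmem : ∀ p : Dir U × ∀ n, Dir (V n),
      e '' {q : ℕ × ℕ | q.1 ∈ p.1.1 ∧ q.2 ∈ (p.2 q.1).1} ∈ (fubiniLim U V).map e := by
    intro p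
    rw [Ultrafilter.mem_map, preimage_image_eq _ e.injective, mem_fubiniLim]
    refine mem_of_superset p.1.2 fun n hn => ?_
    refine mem_of_superset (p.2 n).2 fun m hm => ?_
    exact ⟨hn, hm⟩
  refine ⟨fun p => ⟨_, hmem p⟩, (tukey_iff _).2 fun A => ?_⟩
  have hA : e ⁻¹' A.1 ∈ fubiniLim U V := Ultrafilter.mem_map.1 A.2
  rw [mem_fubiniLim] at hA
  have hc : ∀ n, ∃ B : Dir (V n), {m | (n, m) ∈ e ⁻¹' A.1} ∈ V n →
      B.1 ⊆ {m | (n, m) ∈ e ⁻¹' A.1} := by
    intro n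
    by_cases h : {m | (n, m) ∈ e ⁻¹' A.1} ∈ V n
    · exact ⟨⟨_, h⟩, fun _ => subset_rfl⟩
    · exact ⟨⟨univ, univ_mem⟩, fun h' => absurd h' h⟩
  choose B hB using hc
  refine ⟨(⟨_, hA⟩, B), fun p hp => ?_⟩
  rintro _ ⟨⟨n, m⟩, ⟨h1, h2⟩, rfl⟩
  have h3 : {m | (n, m) ∈ e ⁻¹' A.1} ∈ V n := hp.1 h1
  have h4 : (p.2 n).1 ⊆ (B n).1 := hp.2 n
  exact hB n h3 (h4 h2)

theorem fubini {U : Ultrafilter ℕ} {V : ℕ → Ultrafilter ℕ} (e : ℕ × ℕ ≃ ℕ)
    (hU : BasicallyGenerated U) (hV : ∀ n, BasicallyGenerated (V n)) :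
    BasicallyGenerated ((fubiniLim U V).map e) := by
  obtain ⟨ℬ, h1, h2⟩ := hU.exists_order
  exact product h1 hV ((lim_le U V e).trans (h2.prod ⟨id, fun C hC => by rwa [image_id]⟩))

theorem ppoint_bg {U : Ultrafilter ℕ} (hU : IsPPoint U) : BasicallyGenerated U :=
  ⟨{X | X ∈ U}, fun X hX => hX, fun A hA => ⟨A, hA, subset_rfl⟩,
    fun X Y hX hY hc => Pool.Agent.Y287.BG.ppoint_case hU.2 X Y hX hY hc⟩

theorem gen_bg {V : Ultrafilter ℕ} (h : Gen V) : BasicallyGenerated V := by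
  induction h with
  | ppoint U hU => exact ppoint_bg hU
  | lim U V e _ _ ih1 ih2 => exact fubini e ih1 ih2
  | reduce D U V hD _ hT ih => exact product hD ih hT

theorem unit_basic : IsBasicOrder Unit :=
  ⟨inferInstance, fun _ _ => ⟨(), trivial, trivial⟩, inferInstance,
    fun _ _ _ => ⟨id, strictMono_id, (), fun _ _ => trivial⟩⟩

theorem downward {U V : Ultrafilter ℕ} (hU : BasicallyGenerated U)
    (h : TukeyLE (Dir V) (Dir U)) : BasicallyGenerated V := by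
  obtain ⟨ℬ, h1, h2⟩ := hU.exists_order
  exact main h1 V (h.trans h2)

/-- Closure of the class under Tukey reductions. -/
theorem gen_down {U V : Ultrafilter ℕ} (hU : Gen U) (h : TukeyLE (Dir V) (Dir U)) : Gen V := by
  refine Gen.reduce Unit (fun _ => U) V unit_basic (fun _ => hU) (h.trans ?_)
  refine ⟨fun p => p.2 0, (tukey_iff _).2 fun A => ⟨((), fun _ => A), fun p hp => hp.2 0⟩⟩

theorem iterate_gen {U : Ultrafilter ℕ} (hU : FubiniIterate U) : Gen U := by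
  induction hU with
  | ppoint U hU => exact Gen.ppoint U hU
  | iso U e _ ih =>
    refine gen_down ih ((tukey_mono _ _).2 ⟨fun A => e '' A, ?_, ?_, ?_⟩)
    · intro A hA
      rw [Ultrafilter.mem_map, preimage_image_eq _ e.injective]
      exact hA
    · intro A _ B _ hBA
      exact image_mono hBA
    · intro Q hQ
      exact ⟨e ⁻¹' Q, Ultrafilter.mem_map.1 hQ, image_preimage_subset _ _⟩
  | lim U V e _ _ ih1 ih2 => exact Gen.lim U V e ih1 ih2

/-- **Theorem.** -/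
theorem result :
    -- the characterisation of the basically generated ultrafilters
    (∀ V : Ultrafilter ℕ, BasicallyGenerated V ↔
      ∃ (D : Type) (_ : Preorder D) (_ : TopologicalSpace D), IsBasicOrder D ∧
        TukeyLE (Dir V) D) ∧
    -- the class generated from the p-points and all basic orders
    (∀ V : Ultrafilter ℕ, Gen V → BasicallyGenerated V) ∧
    -- countable products of basically generated ultrafilters and basic orders
    (∀ (D : Type) [Preorder D] [TopologicalSpace D], IsBasicOrder D →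
      ∀ U : ℕ → Ultrafilter ℕ, (∀ n, BasicallyGenerated (U n)) → ∀ V : Ultrafilter ℕ,
        TukeyLE (Dir V) (D × ∀ n, Dir (U n)) → BasicallyGenerated V) ∧
    -- Fubini limits of basically generated ultrafilters
    (∀ (U : Ultrafilter ℕ) (V : ℕ → Ultrafilter ℕ) (e : ℕ × ℕ ≃ ℕ), BasicallyGenerated U →
      (∀ n, BasicallyGenerated (V n)) → BasicallyGenerated ((fubiniLim U V).map e)) ∧
    -- Q1 and Q2 of the problem
    (∀ U V : Ultrafilter ℕ, BasicallyGenerated U → TukeyLE (Dir V) (Dir U) →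
      BasicallyGenerated V) ∧
    (∀ U V : Ultrafilter ℕ, FubiniIterate U → TukeyLE (Dir V) (Dir U) →
      Gen V ∧ BasicallyGenerated V) ∧
    (∀ U V : Ultrafilter ℕ, TukeyLE (Dir V) (Dir U) ↔
      ∃ f : Set ℕ → Set ℕ, (∀ A ∈ U, f A ∈ V) ∧ (∀ A ∈ U, ∀ B ∈ U, B ⊆ A → f B ⊆ f A) ∧
        ∀ Q ∈ V, ∃ A ∈ U, f A ⊆ Q) := by
  refine ⟨?_, fun V h => gen_bg h, ?_, ?_, fun U V hU h => downward hU h, ?_, tukey_mono⟩
  · intro V
    constructor
    · intro hV
      obtain ⟨ℬ, h1, h2⟩ := hV.exists_order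
      exact ⟨BaseDir ℬ, inferInstance, inferInstance, h1, h2⟩
    · rintro ⟨D, _, _, h1, h2⟩
      exact main h1 V h2
  · intro D _ _ hD U hU V h
    exact product hD hU h
  · intro U V e hU hV
    exact fubini e hU hV
  · intro U V hU h
    exact ⟨gen_down (iterate_gen hU) h, gen_bg (gen_down (iterate_gen hU) h)⟩

end Pool.Agent.Results.MP_af8240_lc.BelowBasicOrders
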